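import Pool.Agent.N436.DF.Stm2
import Pool.Agent.N436.DF.All

/-!
# Project DF: easy cases of the key lemma (`S_KLa`, `S_KLb`, `S_KLd`)
-/

namespace Pool.Agent.N678.DF

open Finset Pool.Agent.N436.DF

variable {V : Type} [DecidableEq V]

theorem rho_insert {P : Par} {H : Hub V} (ok : Ok P H) {w : V} {Y : Finset V} (hw : w ∉ Y) :
    rho P H (insert w Y) = rho P H Y + 2 * wt P H w - 2 * ∑ v ∈ Y, ew P H w v := by
  have h1 : ∑ u ∈ Y, ew P H u w = ∑ v ∈ Y, ew P H w v := by
    refine Finset.sum_congr rfl fun u _ => ?_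
    unfold ew
    rw [ok.rsymm u w, ok.msymm u w]
  have h0 : ew P H w w = 0 := by
    unfold ew
    rw [ok.r0, ok.m0]; ring
  unfold rho
  rw [Finset.sum_insert hw, Finset.sum_insert hw, Finset.sum_insert hw]
  have h2 : ∑ u ∈ Y, ∑ v ∈ insert w Y, ew P H u v
      = ∑ v ∈ Y, ew P H w v + ∑ u ∈ Y, ∑ v ∈ Y, ew P H u v := by
    rw [← h1, ← Finset.sum_add_distrib]
    refine Finset.sum_congr rfl fun u _ => ?_
    rw [Finset.sum_insert hw]
  rw [h2, h0]
  ring

theorem F0_le {P : Par} {H : Hub V} {θ : V → ℤ} (h : ∀ v, 0 ≤ θ v) (Y : Finset V) :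
    F0 P H θ Y ≤ rho P H Y := by
  unfold F0
  have : 0 ≤ ∑ v ∈ Y, θ v := Finset.sum_nonneg fun v _ => h v
  linarith

theorem rho_ins_ge {P : Par} {H : Hub V} {T : Finset V} {w : V} {θ : V → ℤ} {s δ : ℤ}
    (st : St P H T w θ s δ) {Y : Finset V} (hY : Y ⊆ T) :
    F0 P H θ Y + 2 * P.b * s - 2 * P.a * ∑ v ∈ Y, H.m w v ≤ rho P H (insert w Y) := by
  have hw : w ∉ Y := fun h => st.hw (hY h)
  rw [rho_insert st.ok hw]
  have h1 : ∑ v ∈ Y, ew P H w v = P.a * ∑ v ∈ Y, H.m w v := by
    rw [Finset.mul_sum]
    refine Finset.sum_congr rfl fun v hv => ?_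
    unfold ew
    rw [st.rw0 v (hY hv)]; ring
  have h2 : wt P H w = P.b * H.c false w := by
    unfold wt
    rw [st.cw]; ring
  rw [h1, h2]
  have h3 := F0_le (P := P) (H := H) st.θnn Y
  have h4 : P.b * s ≤ P.b * H.c false w :=
    mul_le_mul_of_nonneg_left st.cap (by have := P.hb; linarith)
  linarith

theorem rho_T {P : Par} {H : Hub V} {T : Finset V} {w : V} {θ : V → ℤ} {s δ : ℤ}
    (st : St P H T w θ s δ) : -(2 * P.b) - δ ≤ rho P H (insert w T) := by
  have h := rho_ins_ge st (Finset.Subset.refl T)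
  have := st.tot
  linarith

theorem rho_Y {P : Par} {H : Hub V} {T : Finset V} {w : V} {θ : V → ℤ} {s δ : ℤ}
    (st : St P H T w θ s δ) {Y : Finset V} (hY : Y ⊂ T) :
    -(2 * P.b) - δ + 2 * P.a ≤ rho P H (insert w Y) := by
  have h := rho_ins_ge st hY.1
  have h1 := st.tot
  have h2 := st.prop Y hY
  have h3 : ∑ v ∈ T \ Y, H.m w v + ∑ v ∈ Y, H.m w v = ∑ v ∈ T, H.m w v :=
    Finset.sum_sdiff hY.1
  have h4 : 2 * P.a * ∑ v ∈ T \ Y, H.m w v + 2 * P.a * ∑ v ∈ Y, H.m w v
      = 2 * P.a * ∑ v ∈ T, H.m w v := by rw [← h3]; ring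
  linarith

/-- subsets of `insert w T` -/
theorem cases_sub {T : Finset V} {w : V} {Z : Finset V} (hZ : Z ⊆ insert w T) :
    Z ⊆ T ∨ Z = insert w T ∨ ∃ Y, Y ⊂ T ∧ Z = insert w Y := by
  by_cases hw : w ∈ Z
  · right
    have h1 : Z.erase w ⊆ T := by
      intro x hx
      rw [Finset.mem_erase] at hx
      rcases Finset.mem_insert.mp (hZ hx.2) with h | h
      · exact absurd h hx.1
      · exact h
    rcases h1.eq_or_ssubset with h | h
    · left; rw [← h, Finset.insert_erase hw]
    · right; exact ⟨_, h, (Finset.insert_erase hw).symm⟩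
  · left
    intro x hx
    rcases Finset.mem_insert.mp (hZ hx) with h | h
    · exact absurd (h ▸ hx) hw
    · exact h

theorem kla : S_KLa := by
  intro V _ P H T w θ s δ st hδ Z hZ _
  have hb := P.hb
  have hd := P.hd
  have hab := P.hab
  rcases cases_sub hZ with h | h | ⟨Y, hY, h⟩
  · have h1 := F0_le (P := P) (H := H) st.θnn Z
    have h2 := st.nn Z h
    linarith
  · rw [h]
    have := rho_T st
    linarith
  · rw [h]
    have := rho_Y st hY
    linarith

theorem klb : S_KLb := by
  intro V _ P H T w θ s δ st ih _ hs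
  have hb := P.hb
  have hT : Hyp P H T := by
    intro Z hZ _
    have h1 := F0_le (P := P) (H := H) st.θnn Z
    have h2 := st.nn Z hZ
    linarith
  obtain ⟨f, p, hc⟩ := ih H T st.ok rfl (Finset.subset_insert w T) hT
  have ne : ∀ v ∈ T, v ≠ w := fun v hv h => st.hw (h ▸ hv)
  refine ⟨fun v => if v = w then false else f v,
    fun u v => if u = w then H.m w v else if v = w then 0 else p u v, ?_, ?_, ?_⟩
  · intro u v
    split_ifs
    · exact st.ok.m_nn w v
    · exact le_refl 0
    · exact hc.nn u v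
  · intro u hu v hv huv
    by_cases h1 : u = w
    · by_cases h2 : v = w
      · rw [h1, h2] at huv; exact absurd rfl huv
      · simp only [h1, h2, if_true, if_false]
        linarith
    · by_cases h2 : v = w
      · simp only [h1, h2, if_true, if_false]
        rw [st.ok.msymm u w]
        linarith
      · simp only [h1, h2, if_false] at huv ⊢
        exact hc.pay u (Finset.mem_of_mem_insert_of_ne hu h1) v
          (Finset.mem_of_mem_insert_of_ne hv h2) huv
  · intro u hu
    unfold load
    rw [Finset.sum_insert st.hw]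
    by_cases h1 : u = w
    · subst h1
      simp only [if_true]
      have h2 : ∑ v ∈ T, (if false = (if v = u then false else f v) then H.r u v else H.m u v)
          ≤ ∑ v ∈ T, H.m u v := by
        refine Finset.sum_le_sum fun v hv => ?_
        have h5 := st.ok.m_nn u v
        have h6 := st.rw0 v hv
        split_ifs <;> linarith
      have h3 := st.cap
      rw [st.ok.r0]
      linarith
    · have huT : u ∈ T := Finset.mem_of_mem_insert_of_ne hu h1
      simp only [h1, if_true, if_false]
      have h2 := hc.cap u huT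
      unfold load at h2
      have h3 : ∑ v ∈ T, (if f u = (if v = w then false else f v) then H.r u v
          else (if v = w then 0 else p u v)) = ∑ v ∈ T, (if f u = f v then H.r u v else p u v) := by
        refine Finset.sum_congr rfl fun v hv => ?_
        rw [if_neg (ne v hv), if_neg (ne v hv)]
      rw [h3]
      have h4 : H.r u w = 0 := by rw [st.ok.rsymm]; exact st.rw0 u huT
      rw [h4]
      simp only [ite_self, zero_add]
      exact h2

theorem load_nonneg {P : Par} {H : Hub V} (ok : Ok P H) {S : Finset V} {f : V → Bool}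
    {p : V → V → ℤ} (nn : ∀ u v, 0 ≤ p u v) (u : V) : 0 ≤ load H S f p u := by
  unfold load
  refine Finset.sum_nonneg fun v _ => ?_
  split_ifs
  · rcases ok.r01 u v with h | h <;> rw [h] <;> norm_num
  · exact nn u v

theorem kld : S_KLd := by
  intro V _ P H T w θ s δ q st ih hq hm hcq
  have hb := P.hb
  have hd := P.hd
  have hab := P.hab
  have hδb := st.hδb
  have hqw : q ≠ w := fun h => st.hw (h ▸ hq)
  have hmq : 0 ≤ H.m q w + (-1) := by rw [st.ok.msymm]; linarith
  obtain ⟨ok', hrho, -, -⟩ := addm_h V P H (-1) q w st.ok hqw hmq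
  have hyp' : Hyp P (addm H (-1) q w) (insert w T) := by
    intro Z hZ _
    rw [hrho Z]
    rcases cases_sub hZ with h | h | ⟨Y, hY, h⟩
    · have h1 := F0_le (P := P) (H := H) st.θnn Z
      have h2 := st.nn Z h
      split_ifs <;> linarith
    · rw [h, if_pos ⟨Finset.mem_insert_of_mem hq, Finset.mem_insert_self w T⟩]
      have := rho_T st
      linarith
    · rw [h]
      have := rho_Y st hY
      split_ifs <;> linarith
  obtain ⟨f, p, hc⟩ := ih (addm H (-1) q w) (insert w T) ok' rfl (Finset.Subset.refl _) hyp'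
  have key : ∀ u ∈ insert w T, H.c true u = -1 → f u = false := by
    intro u hu hcu
    have h1 := hc.cap u hu
    have h2 := load_nonneg ok' hc.nn (S := insert w T) (f := f) u
    by_contra hf
    have hf' : f u = true := by simpa using hf
    rw [hf'] at h1
    have h3 : (addm H (-1) q w).c true u = -1 := hcu
    rw [h3] at h1
    linarith
  have hfw := key w (Finset.mem_insert_self w T) st.cw
  have hfq := key q (Finset.mem_insert_of_mem hq) hcq
  refine ⟨f, p, hc.nn, ?_, ?_⟩
  · intro u hu v hv huv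
    have h1 := hc.pay u hu v hv huv
    have h2 : (addm H (-1) q w).m u v = H.m u v := by
      unfold addm
      dsimp only
      rw [if_neg]
      rintro (⟨h3, h4⟩ | ⟨h3, h4⟩)
      · rw [h3, h4, hfq, hfw] at huv; exact huv rfl
      · rw [h3, h4, hfq, hfw] at huv; exact huv rfl
    rw [h2] at h1
    exact h1
  · intro u hu
    exact hc.cap u hu

end Pool.Agent.N678.DF
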